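import Pool.Agent.Helper80.MM.Stm

/-!
# `S_FIRST`
-/

set_option autoImplicit false

namespace Pool.Agent.Helper82.MM

open Pool.Agent.Helper80.MM MeasureTheory

/-- index of the monomials `π ^ a u ^ i v ^ j` -/
abbrev Tx (D : ℕ) : Type := (Fin (D + 1) × Fin (D + 1)) × Fin (D + 1)

/-- the monomials -/
noncomputable def ms {D : ℕ} (t : Tx D) : Fin 3 →₀ ℕ :=
  Finsupp.equivFunOnFinite.symm ![(t.2 : ℕ), (t.1.1 : ℕ), (t.1.2 : ℕ)]

theorem ms_inj {D : ℕ} : Function.Injective (ms (D := D)) := by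
  intro t t' h
  have h0 := DFunLike.congr_fun h (0 : Fin 3)
  have h1 := DFunLike.congr_fun h (1 : Fin 3)
  have h2 := DFunLike.congr_fun h (2 : Fin 3)
  simp only [ms, Finsupp.equivFunOnFinite_symm_apply_apply, Matrix.cons_val_zero,
    Matrix.cons_val_one, Matrix.cons_val] at h0 h1 h2
  exact Prod.ext (Prod.ext (Fin.ext h1) (Fin.ext h2)) (Fin.ext h0)

/-- the polynomial in `u` -/
noncomputable def FF (D : ℕ) (L : ℝ) (c : Tx D → ℤ) : Polynomial ℝ :=
  ∑ p : Fin (D + 1) × Fin (D + 1),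
    Polynomial.C (L ^ (p.2 : ℕ) * ∑ a : Fin (D + 1), (c (p, a) : ℝ) * Real.pi ^ (a : ℕ)) *
      Polynomial.X ^ ((p.1 : ℕ) + (D + 1) * (p.2 : ℕ))

theorem ex_inj {D : ℕ} : Function.Injective
    (fun p : Fin (D + 1) × Fin (D + 1) => (p.1 : ℕ) + (D + 1) * (p.2 : ℕ)) := by
  intro p q h
  simp only at h
  have h1 : (p.1 : ℕ) = q.1 := by
    have e := congrArg (fun x => x % (D + 1)) h
    simp only [Nat.add_mul_mod_self_left] at e
    rwa [Nat.mod_eq_of_lt p.1.2, Nat.mod_eq_of_lt q.1.2] at e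
  have h2 : (p.2 : ℕ) = q.2 := by
    rw [h1] at h
    exact Nat.eq_of_mul_eq_mul_left (Nat.succ_pos D) (Nat.add_left_cancel h)
  exact Prod.ext (Fin.ext h1) (Fin.ext h2)

theorem FF_coeff (D : ℕ) (L : ℝ) (c : Tx D → ℤ) (p : Fin (D + 1) × Fin (D + 1)) :
    (FF D L c).coeff ((p.1 : ℕ) + (D + 1) * (p.2 : ℕ)) =
      L ^ (p.2 : ℕ) * ∑ a : Fin (D + 1), (c (p, a) : ℝ) * Real.pi ^ (a : ℕ) := by
  unfold FF
  rw [Polynomial.finsetSum_coeff, Finset.sum_eq_single p]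
  · rw [Polynomial.coeff_C_mul_X_pow, if_pos rfl]
  · intro q _ hq
    rw [Polynomial.coeff_C_mul_X_pow, if_neg]
    intro h
    exact hq (ex_inj h).symm
  · intro h
    exact absurd (Finset.mem_univ _) h

theorem FF_natDegree (D : ℕ) (L : ℝ) (c : Tx D → ℤ) :
    (FF D L c).natDegree ≤ D + (D + 1) * D := by
  unfold FF
  refine Polynomial.natDegree_sum_le_of_forall_le _ _ fun p _ => ?_
  refine (Polynomial.natDegree_C_mul_X_pow_le _ _).trans ?_
  have h1 : (p.1 : ℕ) ≤ D := by omega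
  have h2 : (p.2 : ℕ) ≤ D := by omega
  exact Nat.add_le_add h1 (Nat.mul_le_mul_left _ h2)

theorem FF_eval (D : ℕ) (L u : ℝ) (P : MvPolynomial (Fin 3) ℤ) (hP : P.totalDegree ≤ D) :
    (FF D L fun t => P.coeff (ms t)).eval u =
      MvPolynomial.aeval ![Real.pi, u, L * u ^ (D + 1)] P := by
  have hsub : P.support ⊆ (Finset.univ : Finset (Tx D)).image ms := by
    intro m hm
    have h1 := MvPolynomial.le_totalDegree hm
    have h2 : m 0 + m 1 + m 2 ≤ D := by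
      refine le_trans (le_of_eq ?_) (h1.trans hP)
      rw [Finsupp.sum_fintype _ _ (fun _ => rfl), Fin.sum_univ_three]
    rw [Finset.mem_image]
    refine ⟨((⟨m 1, by omega⟩, ⟨m 2, by omega⟩), ⟨m 0, by omega⟩), Finset.mem_univ _, ?_⟩
    ext k
    fin_cases k <;> simp [ms]
  rw [MvPolynomial.aeval_def, MvPolynomial.eval₂_eq']
  rw [Finset.sum_subset hsub (fun d _ hd => by
    rw [MvPolynomial.notMem_support_iff.1 hd, map_zero, zero_mul])]
  rw [Finset.sum_image (fun _ _ _ _ h => ms_inj h), Fintype.sum_prod_type]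
  unfold FF
  rw [Polynomial.eval_finsetSum]
  refine Finset.sum_congr rfl fun p _ => ?_
  rw [Polynomial.eval_mul, Polynomial.eval_C, Polynomial.eval_pow, Polynomial.eval_X,
    Finset.mul_sum, Finset.sum_mul]
  refine Finset.sum_congr rfl fun a _ => ?_
  rw [Fin.prod_univ_three]
  simp only [ms, Finsupp.equivFunOnFinite_symm_apply_apply, Matrix.cons_val_zero,
    Matrix.cons_val_one, Matrix.cons_val, algebraMap_int_eq, eq_intCast]
  rw [mul_pow, ← pow_mul, pow_add]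
  ring

/-- one variable -/
theorem uni {C D : ℕ} (h : ∀ H : ℕ, 2 ≤ H → ∀ P : MvPolynomial (Fin 1) ℤ, P ≠ 0 →
    P.totalDegree ≤ D → (∀ m, |P.coeff m| ≤ (H : ℤ)) →
    1 ≤ |MvPolynomial.aeval ![Real.pi] P| * (H : ℝ) ^ C) (H : ℕ) (hH : 2 ≤ H)
    (c : Fin (D + 1) → ℤ) (hc : ∀ a, |c a| ≤ (H : ℤ)) (hc0 : c ≠ 0) :
    1 ≤ |∑ a : Fin (D + 1), (c a : ℝ) * Real.pi ^ (a : ℕ)| * (H : ℝ) ^ C := by
  classical
  obtain ⟨G, hG⟩ : ∃ G : MvPolynomial (Fin 1) ℤ, G = ∑ a : Fin (D + 1),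
    MvPolynomial.monomial (Finsupp.single 0 (a : ℕ)) (c a) := ⟨_, rfl⟩
  have hinj : ∀ a b : Fin (D + 1), (Finsupp.single (0 : Fin 1) (a : ℕ)) =
      Finsupp.single 0 (b : ℕ) → a = b := fun a b hab =>
    Fin.ext (Finsupp.single_injective (0 : Fin 1) hab)
  have hco : ∀ b : Fin (D + 1), G.coeff (Finsupp.single 0 (b : ℕ)) = c b := by
    intro b
    rw [hG, MvPolynomial.coeff_sum, Finset.sum_eq_single b]
    · rw [MvPolynomial.coeff_monomial, if_pos rfl]
    · intro a _ hab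
      rw [MvPolynomial.coeff_monomial, if_neg fun h => hab (hinj a b h)]
    · intro h
      exact absurd (Finset.mem_univ _) h
  have h0 : G ≠ 0 := by
    intro h
    apply hc0
    funext b
    rw [← hco b, h, MvPolynomial.coeff_zero]
    rfl
  have hdeg : G.totalDegree ≤ D := by
    rw [hG]
    refine MvPolynomial.totalDegree_finsetSum_le fun a _ => ?_
    refine (MvPolynomial.totalDegree_monomial_le _ _).trans ?_
    rw [Finsupp.sum_single_index rfl]
    exact Nat.lt_succ_iff.1 a.2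
  have hht : ∀ m, |G.coeff m| ≤ (H : ℤ) := by
    intro m
    by_cases hm : ∃ b : Fin (D + 1), Finsupp.single (0 : Fin 1) (b : ℕ) = m
    · obtain ⟨b, rfl⟩ := hm
      rw [hco]
      exact hc b
    · have : G.coeff m = 0 := by
        rw [hG, MvPolynomial.coeff_sum]
        refine Finset.sum_eq_zero fun a _ => ?_
        rw [MvPolynomial.coeff_monomial, if_neg fun h => hm ⟨a, h⟩]
      rw [this, abs_zero]
      exact Int.natCast_nonneg H
  have h1 := h H hH G h0 hdeg hht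
  have h2 : MvPolynomial.aeval ![Real.pi] G = ∑ a : Fin (D + 1), (c a : ℝ) * Real.pi ^ (a : ℕ) := by
    rw [hG, map_sum]
    refine Finset.sum_congr rfl fun a _ => ?_
    rw [MvPolynomial.aeval_monomial, Finsupp.prod_single_index (by simp)]
    simp
  rwa [h2] at h1

/-- Package FIRST. -/
theorem first : S_FIRST := by
  classical
  intro hMetr hPi D L hL
  obtain ⟨C1, hC1⟩ := hPi D
  obtain ⟨c1, hc1⟩ := pow_unbounded_of_one_lt (|L|⁻¹) (one_lt_two : (1 : ℝ) < 2)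
  have hLpos : 0 < |L| := abs_pos.2 hL
  have hL1 : 1 ≤ |L| * 2 ^ c1 := by
    have := mul_le_mul_of_nonneg_left hc1.le hLpos.le
    rwa [mul_inv_cancel₀ hLpos.ne'] at this
  have hLj : ∀ H : ℕ, 2 ≤ H → ∀ j : ℕ, j ≤ D → 1 ≤ |L| ^ j * (H : ℝ) ^ (c1 * D) := by
    intro H hH j hj
    have hH' : (2 : ℝ) ≤ H := by exact_mod_cast hH
    have e1 : (2 : ℝ) ^ (c1 * j) ≤ (H : ℝ) ^ (c1 * D) :=
      (pow_le_pow_left₀ (by norm_num) hH' _).trans
        (pow_le_pow_right₀ (by linarith) (Nat.mul_le_mul_left _ hj))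
    calc (1 : ℝ) ≤ (|L| * 2 ^ c1) ^ j := one_le_pow₀ hL1
      _ = |L| ^ j * 2 ^ (c1 * j) := by rw [mul_pow, ← pow_mul]
      _ ≤ _ := mul_le_mul_of_nonneg_left e1 (pow_nonneg hLpos.le _)
  obtain ⟨S, hS⟩ : ∃ S : ℕ → Finset (Tx D → ℤ), S = fun H : ℕ =>
    (Fintype.piFinset fun _ : Tx D => Finset.Icc (-(H : ℤ)) (H : ℤ)).filter (fun c => c ≠ 0) :=
    ⟨_, rfl⟩
  have hmemS : ∀ H c, c ∈ S H ↔ (∀ t, |c t| ≤ (H : ℤ)) ∧ c ≠ 0 := by
    intro H c
    rw [hS]
    simp only [Finset.mem_filter, Fintype.mem_piFinset, Finset.mem_Icc, abs_le]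
  obtain ⟨C', hC'⟩ := hMetr (D + (D + 1) * D) (Fintype.card (Tx D)) (C1 + c1 * D)
    (fun H => FF D L '' (S H : Set (Tx D → ℤ))) (by
      intro H hH
      refine ⟨(S H).finite_toSet.image _, ?_, ?_⟩
      · refine (Set.ncard_image_le (S H).finite_toSet).trans ?_
        rw [Set.ncard_coe_finset, hS]
        refine (Finset.card_filter_le _ _).trans ?_
        rw [Fintype.card_piFinset, Finset.prod_const, Finset.card_univ, Int.card_Icc]
        refine Nat.pow_le_pow_left ?_ _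
        omega
      · rintro f ⟨c, hc, rfl⟩
        refine ⟨FF_natDegree D L c, ?_⟩
        obtain ⟨hc1', hc2⟩ := (hmemS H c).1 hc
        obtain ⟨t, ht⟩ : ∃ t, c t ≠ 0 := by
          by_contra h
          push Not at h
          exact hc2 (funext h)
        obtain ⟨p, a⟩ := t
        refine ⟨(p.1 : ℕ) + (D + 1) * (p.2 : ℕ), ?_⟩
        rw [FF_coeff, abs_mul, abs_pow]
        have e1 := uni hC1 H hH (fun a => c (p, a)) (fun a => hc1' _)
          (fun h => ht (congrFun h a))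
        have e2 := hLj H hH (p.2 : ℕ) (Nat.lt_succ_iff.1 p.2.2)
        calc (1 : ℝ) ≤ (|L| ^ (p.2 : ℕ) * (H : ℝ) ^ (c1 * D)) *
              (|∑ a : Fin (D + 1), (c (p, a) : ℝ) * Real.pi ^ (a : ℕ)| * (H : ℝ) ^ C1) :=
              one_le_mul_of_one_le_of_one_le e2 e1
          _ = _ := by rw [pow_add]; ring)
  filter_upwards [hC'] with u hu
  obtain ⟨H0, hH0⟩ := hu
  obtain ⟨K, hK⟩ := pow_unbounded_of_one_lt ((max H0 2 : ℕ) : ℝ) (one_lt_two : (1 : ℝ) < 2)
  refine ⟨C' + K * C', fun H hH P hP hdeg hht => ?_⟩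
  have hc0 : (fun t => P.coeff (ms t) : Tx D → ℤ) ≠ 0 := by
    intro h0
    apply hP
    obtain ⟨m, hm⟩ := MvPolynomial.ne_zero_iff.1 hP
    exfalso
    apply hm
    have hms : m ∈ P.support := MvPolynomial.mem_support_iff.2 hm
    have h1 := MvPolynomial.le_totalDegree hms
    have h2 : m 0 + m 1 + m 2 ≤ D := by
      refine le_trans (le_of_eq ?_) (h1.trans hdeg)
      rw [Finsupp.sum_fintype _ _ (fun _ => rfl), Fin.sum_univ_three]
    have h3 : ms (D := D) ((⟨m 1, by omega⟩, ⟨m 2, by omega⟩), ⟨m 0, by omega⟩) = m := by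
      ext k
      fin_cases k <;> simp [ms]
    have h4 := congrFun h0 ((⟨m 1, by omega⟩, ⟨m 2, by omega⟩), ⟨m 0, by omega⟩)
    simp only [h3] at h4
    exact h4
  have hH' : (2 : ℝ) ≤ H := by exact_mod_cast hH
  have hH1 : (1 : ℝ) ≤ H := by linarith
  have key : ∀ H1 : ℕ, H0 ≤ H1 → H ≤ H1 →
      1 ≤ |MvPolynomial.aeval ![Real.pi, u, L * u ^ (D + 1)] P| * (H1 : ℝ) ^ C' := by
    intro H1 h1 h2
    have h3 := hH0 H1 h1 (hH.trans h2) _ ⟨_, (hmemS H1 (fun t => P.coeff (ms t))).2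
      ⟨fun t => (hht _).trans (by exact_mod_cast h2), hc0⟩, rfl⟩
    rwa [FF_eval D L u P hdeg] at h3
  rcases le_total (max H0 2) H with h | h
  · refine (key H ((le_max_left _ _).trans h) le_rfl).trans ?_
    exact mul_le_mul_of_nonneg_left (pow_le_pow_right₀ hH1 (Nat.le_add_right _ _)) (abs_nonneg _)
  · refine (key (max H0 2) (le_max_left _ _) h).trans ?_
    refine mul_le_mul_of_nonneg_left ?_ (abs_nonneg _)
    calc ((max H0 2 : ℕ) : ℝ) ^ C' ≤ ((2 : ℝ) ^ K) ^ C' :=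
          pow_le_pow_left₀ (Nat.cast_nonneg _) hK.le _
      _ = 2 ^ (K * C') := by rw [← pow_mul]
      _ ≤ (H : ℝ) ^ (K * C') := pow_le_pow_left₀ (by norm_num) hH' _
      _ ≤ (H : ℝ) ^ (C' + K * C') := pow_le_pow_right₀ hH1 (Nat.le_add_left _ _)

end Pool.Agent.Helper82.MM
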